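import Pool.Agent.Lib.MP_2d002d_gt.Interfaces

/-!
# MP_2d002d_gt, module M12 (second part): elementary properties of the class
-/

set_option autoImplicit false

open MeasureTheory Set Filter Topology
open scoped ContDiff ENNReal Pointwise

namespace Pool.Agent.Lib.MP_2d002d_gt.H52

/-- Nonnegative log-concave functions on the line are measurable. -/
theorem measurable_lc1 {w : ℝ → ℝ} (h0 : ∀ r, 0 ≤ w r) (hw : LC1 w) : Measurable w := by
  refine measurable_of_Ioi fun c => ?_
  by_cases hc : c < 0
  · have : w ⁻¹' Ioi c = univ := by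
      ext r
      simp only [mem_preimage, mem_Ioi, mem_univ, iff_true]
      exact hc.trans_le (h0 r)
    rw [this]
    exact MeasurableSet.univ
  · push Not at hc
    refine OrdConnected.measurableSet ⟨?_⟩
    intro x hx y hy z hz
    simp only [mem_preimage, mem_Ioi] at hx hy ⊢
    rcases eq_or_lt_of_le (hz.1.trans hz.2) with hxy | hxy
    · have : z = x := le_antisymm (by rw [hxy]; exact hz.2) hz.1
      rw [this]; exact hx
    · set t : ℝ := (y - z) / (y - x) with ht
      have hd : 0 < y - x := by linarith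
      have ht0 : 0 ≤ t := div_nonneg (by linarith [hz.2]) hd.le
      have ht1 : t ≤ 1 := by
        rw [ht, div_le_one hd]
        linarith [hz.1]
      have hz' : t * x + (1 - t) * y = z := by
        rw [ht]
        field_simp
        ring
      have h1 := hw x y t ht0 ht1
      rw [hz'] at h1
      set m := min (w x) (w y) with hm
      have hcm : c < m := lt_min hx hy
      have hm0 : 0 < m := hc.trans_lt hcm
      have h2 : m ^ t * m ^ (1 - t) ≤ w x ^ t * w y ^ (1 - t) := by
        refine mul_le_mul ?_ ?_ (by positivity) (Real.rpow_nonneg (h0 x) _)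
        · exact Real.rpow_le_rpow hm0.le (min_le_left _ _) ht0
        · exact Real.rpow_le_rpow hm0.le (min_le_right _ _) (by linarith)
      have h3 : m ^ t * m ^ (1 - t) = m := by
        rw [← Real.rpow_add hm0]
        rw [show t + (1 - t) = 1 by ring, Real.rpow_one]
      rw [h3] at h2
      linarith

/-- The mixture of Gaussians with weight `w`. -/
noncomputable def mix (w : ℝ → ℝ) (x : ℝ) : ℝ :=
  ∫ r, Real.exp (-(Real.exp r * x ^ 2 / 2)) * w r

theorem mix_nonneg {w : ℝ → ℝ} (h0 : ∀ r, 0 ≤ w r) (x : ℝ) : 0 ≤ mix w x :=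
  integral_nonneg fun r => mul_nonneg (Real.exp_pos _).le (h0 r)

theorem mix_integrable {w : ℝ → ℝ} (hi : Integrable w) (x : ℝ) :
    Integrable (fun r => Real.exp (-(Real.exp r * x ^ 2 / 2)) * w r) := by
  refine hi.bdd_mul (c := 1) (Continuous.aestronglyMeasurable (by fun_prop)) ?_
  refine ae_of_all _ fun r => ?_
  rw [Real.norm_eq_abs, abs_of_nonneg (Real.exp_pos _).le]
  rw [Real.exp_le_one_iff]
  have := Real.exp_pos r
  have := sq_nonneg x
  have : 0 ≤ Real.exp r * x ^ 2 / 2 := by positivity
  linarith

theorem mix_anti {w : ℝ → ℝ} (h0 : ∀ r, 0 ≤ w r) (hi : Integrable w) {x y : ℝ}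
    (h : |x| ≤ |y|) : mix w y ≤ mix w x := by
  refine integral_mono (mix_integrable hi y) (mix_integrable hi x) fun r => ?_
  refine mul_le_mul_of_nonneg_right ?_ (h0 r)
  rw [Real.exp_le_exp]
  have h1 : x ^ 2 ≤ y ^ 2 := sq_le_sq.2 h
  have h2 := Real.exp_pos r
  have : Real.exp r * x ^ 2 ≤ Real.exp r * y ^ 2 := mul_le_mul_of_nonneg_left h1 h2.le
  linarith

theorem mix_le {w : ℝ → ℝ} (h0 : ∀ r, 0 ≤ w r) (hi : Integrable w) (x : ℝ) :
    mix w x ≤ ∫ r, w r := by
  refine integral_mono (mix_integrable hi x) hi fun r => ?_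
  have h2 := Real.exp_pos r
  have h3 : Real.exp (-(Real.exp r * x ^ 2 / 2)) ≤ 1 := by
    rw [Real.exp_le_one_iff]
    have : 0 ≤ Real.exp r * x ^ 2 / 2 := by positivity
    linarith
  calc Real.exp (-(Real.exp r * x ^ 2 / 2)) * w r ≤ 1 * w r :=
        mul_le_mul_of_nonneg_right h3 (h0 r)
    _ = w r := one_mul _

theorem mix_even (w : ℝ → ℝ) (x : ℝ) : mix w (-x) = mix w x := by
  unfold mix
  simp only [neg_sq]

theorem mix_measurable {w : ℝ → ℝ} (hm : Measurable w) : Measurable (mix w) := by
  have h : StronglyMeasurable (Function.uncurry fun x r : ℝ =>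
      Real.exp (-(Real.exp r * x ^ 2 / 2)) * w r) := by
    apply Measurable.stronglyMeasurable
    have h1 : Continuous fun p : ℝ × ℝ => Real.exp (-(Real.exp p.2 * p.1 ^ 2 / 2)) := by
      fun_prop
    exact h1.measurable.mul (hm.comp measurable_snd)
  exact h.integral_prod_right.measurable

/-- The elementary properties of the class. -/
theorem clsProps : ClsProps := by
  intro f hf
  induction hf with
  | profile g h0 hanti hlc =>
    refine ⟨fun x => h0 _ (sq_nonneg x), ?_, fun x => by simp only [neg_sq], fun x y h =>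
      hanti _ _ (sq_nonneg x) (sq_le_sq.2 h)⟩
    have h1 : Antitone (fun s : ℝ => g (max s 0)) := by
      intro s t hst
      exact hanti _ _ (le_max_right _ _) (max_le_max hst le_rfl)
    have h2 : (fun x : ℝ => g (x ^ 2)) = (fun s : ℝ => g (max s 0)) ∘ fun x => x ^ 2 := by
      funext x
      simp only [Function.comp_apply]
      rw [max_eq_left (sq_nonneg x)]
    rw [h2]
    exact h1.measurable.comp (measurable_id.pow_const 2)
  | power c p hc hp hp2 =>
    refine ⟨fun x => (Real.exp_pos _).le, ?_, fun x => by simp only [abs_neg], fun x y h => ?_⟩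
    · have : Continuous fun x : ℝ => Real.exp (-(c * |x| ^ p)) := by
        have h1 : Continuous fun x : ℝ => |x| ^ p :=
          Continuous.rpow_const continuous_abs fun x => Or.inr hp.le
        fun_prop
      exact this.measurable
    · rw [Real.exp_le_exp]
      have := Real.rpow_le_rpow (abs_nonneg x) h hp.le
      have := mul_le_mul_of_nonneg_left this hc
      linarith
  | student c a hc ha =>
    have hb : ∀ x : ℝ, 1 ≤ 1 + x ^ 2 / a := fun x => by
      have : 0 ≤ x ^ 2 / a := by positivity
      linarith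
    refine ⟨fun x => Real.rpow_nonneg (by linarith [hb x]) _, ?_, fun x => by simp only [neg_sq],
      fun x y h => ?_⟩
    · have : Continuous fun x : ℝ => (1 + x ^ 2 / a) ^ (-c) :=
        Continuous.rpow_const (by fun_prop) fun x => Or.inl (by linarith [hb x])
      exact this.measurable
    · refine Real.rpow_le_rpow_of_nonpos (by linarith [hb x]) ?_ (by linarith)
      have : x ^ 2 / a ≤ y ^ 2 / a := div_le_div_of_nonneg_right (sq_le_sq.2 h) ha.le
      linarith
  | mixture w h0 hw hi =>
    exact ⟨mix_nonneg h0, mix_measurable (measurable_lc1 h0 hw), mix_even w,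
      fun x y h => mix_anti h0 hi h⟩
  | mul f g _ _ hf hg =>
    refine ⟨fun x => mul_nonneg (hf.1 x) (hg.1 x), hf.2.1.mul hg.2.1, fun x => by
      simp only [hf.2.2.1, hg.2.2.1], fun x y h => ?_⟩
    exact mul_le_mul (hf.2.2.2 x y h) (hg.2.2.2 x y h) (hg.1 y) (hf.1 x)
  | lim f g _ hlim hf =>
    refine ⟨fun x => ge_of_tendsto' (hlim x) fun k => (hf k).1 x, ?_, fun x => ?_,
      fun x y h => ?_⟩
    · exact measurable_of_tendsto_metrizable (fun k => (hf k).2.1) (tendsto_pi_nhds.2 hlim)
    · refine tendsto_nhds_unique (hlim (-x)) ?_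
      have : (fun k => f k (-x)) = fun k => f k x := funext fun k => (hf k).2.2.1 x
      rw [this]
      exact hlim x
    · exact le_of_tendsto_of_tendsto' (hlim y) (hlim x) fun k => (hf k).2.2.2 x y h

end Pool.Agent.Lib.MP_2d002d_gt.H52
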