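import Pool.Agent.Lib.MP_2d002d_gt.H52.Stab
import Pool.Agent.Lib.MP_2d002d_gt.H52.Props

/-!
# MP_2d002d_gt, module M12 (third part): joint log-concavity for the class
-/

set_option autoImplicit false

open MeasureTheory Set Filter Topology
open scoped ContDiff ENNReal Pointwise

namespace Pool.Agent.Lib.MP_2d002d_gt.H52

/-! ## Base functions -/

/-- Base functions: admissible profile times mixtures, cut off at a symmetric interval. -/
def Base (f : ℝ → ℝ) : Prop :=
  ∃ (d : ℕ) (A : ℝ → ℝ) (w : Fin d → ℝ → ℝ) (I : Set ℝ), Adm A ∧ (∀ k r, 0 ≤ w k r) ∧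
    (∀ k, LC1 (w k)) ∧ (∀ k, Measurable (w k)) ∧ (∀ k, Integrable (w k)) ∧
    Convex ℝ I ∧ (∀ x ∈ I, -x ∈ I) ∧
    f = I.indicator (fun x => Real.exp (-A (x ^ 2)) * ∏ k, mix (w k) x)

theorem Base.props {f : ℝ → ℝ} (hf : Base f) :
    Measurable f ∧ ∃ C, ∀ x, 0 ≤ f x ∧ f x ≤ C := by
  obtain ⟨d, A, w, I, hA, h0, hw, hm, hi, hI, hs, rfl⟩ := hf
  constructor
  · refine Measurable.indicator ?_ hI.ordConnected.measurableSet
    refine Measurable.mul ?_ ?_
    · have : Continuous fun x : ℝ => Real.exp (-A (x ^ 2)) := by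
        have := hA.smooth.continuous
        fun_prop
      exact this.measurable
    · exact Finset.measurable_prod _ fun k _ => mix_measurable (hm k)
  · refine ⟨Real.exp (-A 0) * ∏ k, ∫ r, w k r, fun x => ?_⟩
    have h1 : 0 ≤ Real.exp (-A (x ^ 2)) * ∏ k, mix (w k) x :=
      mul_nonneg (Real.exp_pos _).le (Finset.prod_nonneg fun k _ => mix_nonneg (h0 k) x)
    have h2 : Real.exp (-A (x ^ 2)) * ∏ k, mix (w k) x ≤ Real.exp (-A 0) * ∏ k, ∫ r, w k r := by
      refine mul_le_mul ?_ ?_ (Finset.prod_nonneg fun k _ => mix_nonneg (h0 k) x)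
        (Real.exp_pos _).le
      · rw [Real.exp_le_exp]
        have := adm_mono hA (sq_nonneg x)
        linarith
      · exact Finset.prod_le_prod (fun k _ => mix_nonneg (h0 k) x)
          fun k _ => mix_le (h0 k) (hi k) x
    by_cases hx : x ∈ I
    · rw [indicator_of_mem hx]
      exact ⟨h1, h2⟩
    · rw [indicator_of_notMem hx]
      exact ⟨le_rfl, h1.trans h2⟩

theorem Base.mul {f g : ℝ → ℝ} (hf : Base f) (hg : Base g) : Base (fun x => f x * g x) := by
  obtain ⟨d, A, w, I, hA, h0, hw, hm, hi, hI, hs, rfl⟩ := hf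
  obtain ⟨d', A', w', I', hA', h0', hw', hm', hi', hI', hs', rfl⟩ := hg
  refine ⟨d + d', fun s => A s + A' s, Fin.append w w', I ∩ I', adm_add hA hA', ?_, ?_, ?_, ?_,
    hI.inter hI', fun x hx => ⟨hs x hx.1, hs' x hx.2⟩, ?_⟩
  · intro k r
    refine Fin.addCases (fun i => ?_) (fun i => ?_) k
    · rw [Fin.append_left]; exact h0 i r
    · rw [Fin.append_right]; exact h0' i r
  · intro k
    refine Fin.addCases (fun i => ?_) (fun i => ?_) k
    · rw [Fin.append_left]; exact hw i
    · rw [Fin.append_right]; exact hw' i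
  · intro k
    refine Fin.addCases (fun i => ?_) (fun i => ?_) k
    · rw [Fin.append_left]; exact hm i
    · rw [Fin.append_right]; exact hm' i
  · intro k
    refine Fin.addCases (fun i => ?_) (fun i => ?_) k
    · rw [Fin.append_left]; exact hi i
    · rw [Fin.append_right]; exact hi' i
  · funext x
    rw [← inter_indicator_mul]
    congr 1
    funext x
    rw [Fin.prod_univ_add]
    simp only [Fin.append_left, Fin.append_right]
    rw [show -(A (x ^ 2) + A' (x ^ 2)) = -A (x ^ 2) + -A' (x ^ 2) by ring, Real.exp_add]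
    ring

/-! ## The limit closure -/

/-- Bounded almost everywhere limits of base functions (iterated). -/
inductive LCl : (ℝ → ℝ) → Prop
  | base (f : ℝ → ℝ) : Base f → LCl f
  | lim (f : ℕ → ℝ → ℝ) (g : ℝ → ℝ) (C : ℝ) : (∀ k, LCl (f k)) → (∀ k x, f k x ≤ C) →
      Measurable g → (∀ x, 0 ≤ g x ∧ g x ≤ C) →
      (∀ᵐ x : ℝ, Tendsto (fun k => f k x) atTop (𝓝 (g x))) → LCl g

theorem LCl.props {f : ℝ → ℝ} (hf : LCl f) :
    Measurable f ∧ ∃ C, ∀ x, 0 ≤ f x ∧ f x ≤ C := by
  induction hf with
  | base f hf => exact hf.props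
  | lim f g C _ _ hg h0 _ _ => exact ⟨hg, C, h0⟩

theorem LCl.mul_base {f g : ℝ → ℝ} (hf : Base f) (hg : LCl g) : LCl (fun x => f x * g x) := by
  induction hg with
  | base g hg => exact LCl.base _ (hf.mul hg)
  | lim h g C hh hb hg h0 hlim ih =>
    obtain ⟨hfm, D, hD⟩ := hf.props
    have hD0 : 0 ≤ D := (hD 0).1.trans (hD 0).2
    refine LCl.lim (fun k x => f x * h k x) _ (D * C) ih ?_ (hfm.mul hg) ?_ ?_
    · intro k x
      exact mul_le_mul (hD x).2 (hb k x) ((hh k).props.2.choose_spec x).1 hD0
    · intro x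
      exact ⟨mul_nonneg (hD x).1 (h0 x).1, mul_le_mul (hD x).2 (h0 x).2 (h0 x).1 hD0⟩
    · filter_upwards [hlim] with x hx
      exact hx.const_mul _

theorem LCl.mul {f g : ℝ → ℝ} (hf : LCl f) (hg : LCl g) : LCl (fun x => f x * g x) := by
  induction hf with
  | base f hf => exact LCl.mul_base hf hg
  | lim h f C hh hb hf h0 hlim ih =>
    obtain ⟨hgm, D, hD⟩ := hg.props
    have hC0 : 0 ≤ C := (h0 0).1.trans (h0 0).2
    refine LCl.lim (fun k x => h k x * g x) _ (C * D) ih ?_ (hf.mul hgm) ?_ ?_
    · intro k x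
      exact mul_le_mul (hb k x) (hD x).2 (hD x).1 hC0
    · intro x
      exact ⟨mul_nonneg (h0 x).1 (hD x).1, mul_le_mul (h0 x).2 (hD x).2 (hD x).1 hC0⟩
    · filter_upwards [hlim] with x hx
      exact hx.mul_const _

/-! ## Joint log-concavity for products -/

/-- All coordinates are base functions. -/
theorem jlc_base (hmix : MixJLC) {n : ℕ} (f : Fin n → ℝ → ℝ) (hf : ∀ i, Base (f i)) :
    JLC (fun x : Fin n → ℝ => ∏ i, f i (x i)) := by
  classical
  choose d A w I hA h0 hw hm hi hI hs hfe using hf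
  -- one index for all mixtures
  let e := Fintype.equivFin (Σ i, Fin (d i))
  let o : Fin (Fintype.card (Σ i, Fin (d i))) → Fin n := fun k => (e.symm k).1
  let W : Fin (Fintype.card (Σ i, Fin (d i))) → ℝ → ℝ := fun k => w (e.symm k).1 (e.symm k).2
  have hJ := hmix n _ o A W hA (fun k r => h0 _ _ r) (fun k => hw _ _) (fun k => hm _ _)
    (fun k => hi _ _)
  set g : (Fin n → ℝ) → ℝ := fun x => (∏ i, Real.exp (-A i (x i ^ 2))) *
      ∏ k, ∫ r, Real.exp (-(Real.exp r * x (o k) ^ 2 / 2)) * W k r with hg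
  have hge : ∀ x, g x = ∏ i, (Real.exp (-A i (x i ^ 2)) * ∏ k, mix (w i k) (x i)) := by
    intro x
    rw [hg, Finset.prod_mul_distrib]
    show (∏ i, Real.exp (-A i (x i ^ 2))) * (∏ k, mix (W k) (x (o k))) = _
    congr 1
    rw [← e.prod_comp]
    have h1 : ∀ p : Σ i, Fin (d i), mix (W (e p)) (x (o (e p))) = mix (w p.1 p.2) (x p.1) := by
      intro p
      show mix (w (e.symm (e p)).1 (e.symm (e p)).2) (x (e.symm (e p)).1) = _
      rw [e.symm_apply_apply]
    rw [Finset.prod_congr rfl fun p _ => h1 p]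
    rw [Fintype.prod_sigma]
  -- bounds
  have hfac0 : ∀ i (y : ℝ), 0 ≤ Real.exp (-A i (y ^ 2)) * ∏ k, mix (w i k) y := fun i y =>
    mul_nonneg (Real.exp_pos _).le (Finset.prod_nonneg fun k _ => mix_nonneg (h0 i k) y)
  have hfacC : ∀ i (y : ℝ), Real.exp (-A i (y ^ 2)) * ∏ k, mix (w i k) y ≤
      Real.exp (-A i 0) * ∏ k, ∫ r, w i k r := by
    intro i y
    refine mul_le_mul ?_ ?_ (Finset.prod_nonneg fun k _ => mix_nonneg (h0 i k) y)
      (Real.exp_pos _).le
    · rw [Real.exp_le_exp]
      have := adm_mono (hA i) (sq_nonneg y)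
      linarith
    · exact Finset.prod_le_prod (fun k _ => mix_nonneg (h0 i k) y)
        fun k _ => mix_le (h0 i k) (hi i k) y
  have hgm : Measurable g := by
    have h1 : g = fun x => ∏ i, (Real.exp (-A i (x i ^ 2)) * ∏ k, mix (w i k) (x i)) :=
      funext hge
    rw [h1]
    refine Finset.measurable_prod _ fun i _ => ?_
    refine Measurable.mul ?_ ?_
    · have h2 : Continuous fun x : ℝ => Real.exp (-A i (x ^ 2)) := by
        have := (hA i).smooth.continuous
        fun_prop
      exact h2.measurable.comp (measurable_pi_apply i)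
    · exact Finset.measurable_prod _ fun k _ =>
        (mix_measurable (hm i k)).comp (measurable_pi_apply i)
  have hres := jlc_indicator g hJ hgm
    (fun x => by rw [hge]; exact Finset.prod_nonneg fun i _ => hfac0 i _)
    (∏ i, (Real.exp (-A i 0) * ∏ k, ∫ r, w i k r))
    (fun x => by
      rw [hge]
      exact Finset.prod_le_prod (fun i _ => hfac0 i _) fun i _ => hfacC i _)
    (Set.pi univ I) (convex_pi fun i _ => hI i)
    (fun x hx i _ => hs i _ (hx i (mem_univ i)))
    (MeasurableSet.univ_pi fun i => (hI i).ordConnected.measurableSet)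
  have hfin : (fun x : Fin n → ℝ => ∏ i, f i (x i)) = (Set.pi univ I).indicator g := by
    funext x
    by_cases hx : x ∈ Set.pi univ I
    · rw [indicator_of_mem hx, hge]
      refine Finset.prod_congr rfl fun i _ => ?_
      rw [hfe i, indicator_of_mem (hx i (mem_univ i))]
    · rw [indicator_of_notMem hx]
      have : ∃ i, x i ∉ I i := by
        by_contra hall
        push Not at hall
        exact hx fun i _ => hall i
      obtain ⟨i, hi'⟩ := this
      refine Finset.prod_eq_zero (Finset.mem_univ i) ?_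
      rw [hfe i, indicator_of_notMem hi']
  rw [hfin]
  exact hres

/-- Coordinates in the limit closure. -/
theorem jlc_lcl (hmix : MixJLC) {n : ℕ} (s : Finset (Fin n)) :
    ∀ f : Fin n → ℝ → ℝ, (∀ i ∈ s, LCl (f i)) → (∀ i ∉ s, Base (f i)) →
      JLC (fun x : Fin n → ℝ => ∏ i, f i (x i)) := by
  classical
  induction s using Finset.induction_on with
  | empty =>
    intro f _ h
    exact jlc_base hmix f fun i => h i (Finset.notMem_empty i)
  | insert a s ha ih =>
    intro f h1 h2
    have key : ∀ h : ℝ → ℝ, LCl h →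
        JLC (fun x : Fin n → ℝ => ∏ i, Function.update f a h i (x i)) := by
      intro h hh
      induction hh with
      | base h hb =>
        refine ih _ (fun i hi => ?_) (fun i hi => ?_)
        · have hne : i ≠ a := fun hia => ha (hia ▸ hi)
          rw [Function.update_of_ne hne]
          exact h1 i (Finset.mem_insert_of_mem hi)
        · by_cases hia : i = a
          · subst hia
            rw [Function.update_self]
            exact hb
          · rw [Function.update_of_ne hia]
            exact h2 i fun h => by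
              rcases Finset.mem_insert.1 h with h | h
              · exact hia h
              · exact hi h
      | lim F g C hF hb hgm hg0 hlim ihk =>
        have hall : ∀ i, Measurable (f i) ∧ ∃ C, ∀ x, 0 ≤ f i x ∧ f i x ≤ C := by
          intro i
          by_cases hi : i ∈ insert a s
          · exact (h1 i hi).props
          · exact (h2 i hi).props
        choose hfm D hD using hall
        have hFp : ∀ k, Measurable (F k) ∧ ∀ x, 0 ≤ F k x := fun k =>
          ⟨(hF k).props.1, fun x => ((hF k).props.2.choose_spec x).1⟩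
        refine jlc_lim (fun k (x : Fin n → ℝ) => ∏ i, Function.update f a (F k) i (x i)) _
          (∏ i, Function.update D a C i) ihk ?_ ?_ ?_
        · intro k
          refine Finset.measurable_prod _ fun i _ => ?_
          by_cases hia : i = a
          · subst hia
            rw [Function.update_self]
            exact (hFp k).1.comp (measurable_pi_apply i)
          · rw [Function.update_of_ne hia]
            exact (hfm i).comp (measurable_pi_apply i)
        · intro k x
          have hn : ∀ i, 0 ≤ Function.update f a (F k) i (x i) := by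
            intro i
            by_cases hia : i = a
            · subst hia
              rw [Function.update_self]
              exact (hFp k).2 _
            · rw [Function.update_of_ne hia]
              exact (hD i _).1
          rw [abs_of_nonneg (Finset.prod_nonneg fun i _ => hn i)]
          refine Finset.prod_le_prod (fun i _ => hn i) fun i _ => ?_
          by_cases hia : i = a
          · subst hia
            rw [Function.update_self, Function.update_self]
            exact hb k _
          · rw [Function.update_of_ne hia, Function.update_of_ne hia]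
            exact (hD i _).2
        · have h3 : ∀ᵐ x : Fin n → ℝ, Tendsto (fun k => F k (x a)) atTop (𝓝 (g (x a))) :=
            (Measure.quasiMeasurePreserving_eval (fun _ : Fin n => (volume : Measure ℝ)) a).ae hlim
          filter_upwards [h3] with x hx
          refine tendsto_finset_prod _ fun i _ => ?_
          by_cases hia : i = a
          · subst hia
            simp only [Function.update_self]
            exact hx
          · simp only [Function.update_of_ne hia]
            exact tendsto_const_nhds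
    have := key (f a) (h1 a (Finset.mem_insert_self a s))
    rw [Function.update_eq_self] at this
    exact this

/-! ## The class is contained in the limit closure -/

theorem Base.indicator_exp {A : ℝ → ℝ} (hA : Adm A) {I : Set ℝ} (hI : Convex ℝ I)
    (hs : ∀ x ∈ I, -x ∈ I) : Base (I.indicator fun x => Real.exp (-A (x ^ 2))) := by
  refine ⟨0, A, fun k => k.elim0, I, hA, fun k => k.elim0, fun k => k.elim0, fun k => k.elim0,
    fun k => k.elim0, hI, hs, ?_⟩
  simp

theorem Base.exp {A : ℝ → ℝ} (hA : Adm A) : Base (fun x => Real.exp (-A (x ^ 2))) := by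
  have := Base.indicator_exp hA convex_univ (fun x _ => mem_univ _)
  rwa [indicator_univ] at this

theorem Base.zero : Base (fun _ => 0) := by
  have := Base.indicator_exp (adm_linear one_pos) convex_empty (fun x hx => hx.elim)
  rwa [indicator_empty] at this

theorem tendsto_exp_inv (x : ℝ) :
    Tendsto (fun m : ℕ => Real.exp (-(1 / ((m : ℝ) + 1) * x ^ 2))) atTop (𝓝 1) := by
  have h1 : Tendsto (fun m : ℕ => 1 / ((m : ℝ) + 1)) atTop (𝓝 0) :=
    tendsto_one_div_add_atTop_nhds_zero_nat
  have h2 : Tendsto (fun m : ℕ => -(1 / ((m : ℝ) + 1) * x ^ 2)) atTop (𝓝 (-(0 * x ^ 2))) :=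
    (h1.mul_const _).neg
  have h3 := (Real.continuous_exp.tendsto _).comp h2
  simp only [zero_mul, neg_zero, Real.exp_zero] at h3
  exact h3

theorem LCl.one : LCl (fun _ => 1) := by
  refine LCl.lim (fun m x => Real.exp (-(1 / ((m : ℝ) + 1) * x ^ 2))) _ 1 ?_ ?_
    measurable_const (fun x => ⟨zero_le_one, le_rfl⟩) (ae_of_all _ tendsto_exp_inv)
  · intro m
    exact LCl.base _ (Base.exp (adm_linear (by positivity)))
  · intro m x
    rw [Real.exp_le_one_iff]
    have : 0 ≤ 1 / ((m : ℝ) + 1) * x ^ 2 := by positivity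
    linarith

theorem LCl.mix {w : ℝ → ℝ} (h0 : ∀ r, 0 ≤ w r) (hw : LC1 w) (hi : Integrable w) :
    LCl (mix w) := by
  have hm := measurable_lc1 h0 hw
  refine LCl.lim (fun m x => Real.exp (-(1 / ((m : ℝ) + 1) * x ^ 2)) * H52.mix w x) _
    (∫ r, w r) ?_ ?_ (mix_measurable hm) (fun x => ⟨mix_nonneg h0 x, mix_le h0 hi x⟩)
    (ae_of_all _ fun x => ?_)
  · intro m
    refine LCl.base _ ⟨1, fun s => 1 / ((m : ℝ) + 1) * s, fun _ => w, univ,
      adm_linear (by positivity), fun _ => h0, fun _ => hw, fun _ => hm, fun _ => hi,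
      convex_univ, fun x _ => mem_univ _, ?_⟩
    rw [indicator_univ]
    funext x
    rw [Fin.prod_univ_one]
  · intro m x
    have h1 : Real.exp (-(1 / ((m : ℝ) + 1) * x ^ 2)) ≤ 1 := by
      rw [Real.exp_le_one_iff]
      have : 0 ≤ 1 / ((m : ℝ) + 1) * x ^ 2 := by positivity
      linarith
    calc Real.exp (-(1 / ((m : ℝ) + 1) * x ^ 2)) * H52.mix w x ≤ 1 * H52.mix w x :=
          mul_le_mul_of_nonneg_right h1 (mix_nonneg h0 x)
      _ ≤ ∫ r, w r := by rw [one_mul]; exact mix_le h0 hi x
  · have := (tendsto_exp_inv x).mul_const (H52.mix w x)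
    rwa [one_mul] at this

theorem LCl.student (hG : GammaMix) {c a : ℝ} (hc : 0 ≤ c) (ha : 0 < a) :
    LCl (fun x => (1 + x ^ 2 / a) ^ (-c)) := by
  rcases hc.eq_or_lt with rfl | hc
  · have : (fun x : ℝ => (1 + x ^ 2 / a) ^ (-(0 : ℝ))) = fun _ => 1 := by
      funext x
      rw [neg_zero, Real.rpow_zero]
    rw [this]
    exact LCl.one
  · obtain ⟨w, h0, hw, _, hi, he⟩ := hG a c ha hc
    have : (fun x : ℝ => (1 + x ^ 2 / a) ^ (-c)) = H52.mix w := funext he
    rw [this]
    exact LCl.mix h0 hw hi

theorem LCl.prod {m : ℕ} (f : Fin m → ℝ → ℝ) (hf : ∀ j, LCl (f j)) :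
    LCl (fun x => ∏ j, f j x) := by
  induction m with
  | zero =>
    simp only [Finset.univ_eq_empty, Finset.prod_empty]
    exact LCl.one
  | succ m ih =>
    have : (fun x => ∏ j, f j x) = fun x => f 0 x * ∏ j, f (Fin.succ j) x := by
      funext x
      rw [Fin.prod_univ_succ]
    rw [this]
    exact (hf 0).mul (ih _ fun j => hf _)

theorem LCl.power (hT : Thorin) (hG : GammaMix) {c p : ℝ} (hc : 0 ≤ c) (hp : 0 < p)
    (hp2 : p ≤ 2) : LCl (fun x => Real.exp (-(c * |x| ^ p))) := by
  rcases hc.eq_or_lt with rfl | hc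
  · simp only [zero_mul, neg_zero, Real.exp_zero]
    exact LCl.one
  rcases hp2.eq_or_lt with rfl | hp2
  · have : (fun x : ℝ => Real.exp (-(c * |x| ^ (2 : ℝ)))) = fun x => Real.exp (-(c * x ^ 2)) := by
      funext x
      rw [Real.rpow_two, sq_abs]
    rw [this]
    exact LCl.base _ (Base.exp (adm_linear hc))
  · obtain ⟨m, a, w, ha, hw, hlim⟩ := hT c p hc hp hp2
    refine LCl.lim (fun N x => ∏ j, (1 + x ^ 2 / a N j) ^ (-(w N j))) _ 1 ?_ ?_
      (clsProps _ (Cls.power c p hc.le hp hp2.le)).2.1 (fun x => ⟨(Real.exp_pos _).le, ?_⟩)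
      (ae_of_all _ hlim)
    · intro N
      exact LCl.prod _ fun j => LCl.student hG (hw N j).le (ha N j)
    · intro N x
      refine Finset.prod_le_one (fun j _ => ?_) fun j _ => ?_
      · have : 0 ≤ x ^ 2 / a N j := div_nonneg (sq_nonneg x) (ha N j).le
        exact Real.rpow_nonneg (by linarith) _
      · have : 0 ≤ x ^ 2 / a N j := div_nonneg (sq_nonneg x) (ha N j).le
        exact Real.rpow_le_one_of_one_le_of_nonpos (by linarith) (by linarith [hw N j])
    · rw [Real.exp_le_one_iff]
      have : 0 ≤ c * |x| ^ p := by positivity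
      linarith

theorem LCl.profile (hP : ProfLim) (g : ℝ → ℝ) (h0 : ∀ s, 0 ≤ s → 0 ≤ g s)
    (hanti : ∀ s t, 0 ≤ s → s ≤ t → g t ≤ g s)
    (hlc : ∀ x y t : ℝ, 0 ≤ x → 0 ≤ y → 0 ≤ t → t ≤ 1 →
        g x ^ t * g y ^ (1 - t) ≤ g (t * x + (1 - t) * y)) : LCl (fun x => g (x ^ 2)) := by
  have hprops := clsProps _ (Cls.profile g h0 hanti hlc)
  by_cases hpos : ∃ s, 0 < s ∧ 0 < g s
  · obtain ⟨A, hA, ⟨C, hC⟩, hlim⟩ := hP g h0 hanti hlc hpos
    set I : Set ℝ := {x | 0 < g (x ^ 2)} with hI
    have hIabs : ∀ x y : ℝ, |x| ≤ |y| → y ∈ I → x ∈ I := fun x y h hy =>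
      lt_of_lt_of_le hy (hprops.2.2.2 x y h)
    have hIc : Convex ℝ I := by
      rw [convex_iff_ordConnected]
      refine ⟨fun x hx y hy z hz => ?_⟩
      rcases le_total 0 z with h | h
      · refine hIabs z y ?_ hy
        rw [abs_of_nonneg h]
        exact hz.2.trans (le_abs_self y)
      · refine hIabs z x ?_ hx
        rw [abs_of_nonpos h, ← abs_neg]
        exact (neg_le_neg hz.1).trans (le_abs_self _)
    have hIs : ∀ x ∈ I, -x ∈ I := fun x hx => hIabs (-x) x (by rw [abs_neg]) hx
    have hC0 : 0 ≤ C := (Real.exp_pos _).le.trans (hC 0 0 le_rfl)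
    refine LCl.lim (fun m => I.indicator fun x => Real.exp (-A m (x ^ 2))) _ (max C (g 0)) ?_ ?_
      hprops.2.1 (fun x => ⟨hprops.1 x, ?_⟩) ?_
    · intro m
      exact LCl.base _ (Base.indicator_exp (hA m) hIc hIs)
    · intro m x
      by_cases hx : x ∈ I
      · rw [indicator_of_mem hx]
        exact (hC m _ (sq_nonneg x)).trans (le_max_left _ _)
      · rw [indicator_of_notMem hx]
        exact hC0.trans (le_max_left _ _)
    · exact (hanti 0 (x ^ 2) le_rfl (sq_nonneg x)).trans (le_max_right _ _)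
    · filter_upwards [hlim] with x hx
      by_cases hxI : x ∈ I
      · simp only [indicator_of_mem hxI]
        exact hx hxI
      · simp only [indicator_of_notMem hxI]
        have h1 : g (x ^ 2) = 0 := le_antisymm (not_lt.1 hxI) (h0 _ (sq_nonneg x))
        rw [h1]
        exact tendsto_const_nhds
  · push Not at hpos
    refine LCl.lim (fun _ _ => 0) _ (g 0) (fun _ => LCl.base _ Base.zero)
      (fun _ _ => h0 0 le_rfl) hprops.2.1
      (fun x => ⟨hprops.1 x, hanti 0 (x ^ 2) le_rfl (sq_nonneg x)⟩) ?_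
    have h1 : ∀ᵐ x : ℝ, x ≠ 0 := by
      rw [ae_iff]
      simp
    filter_upwards [h1] with x hx
    have h2 : g (x ^ 2) = 0 :=
      le_antisymm (hpos _ (by positivity)) (h0 _ (sq_nonneg x))
    rw [h2]
    exact tendsto_const_nhds

theorem lcl_of_cls (hP : ProfLim) (hT : Thorin) (hG : GammaMix) {f : ℝ → ℝ} (hf : Cls f) :
    LCl f := by
  induction hf with
  | profile g h0 hanti hlc => exact LCl.profile hP g h0 hanti hlc
  | power c p hc hp hp2 => exact LCl.power hT hG hc hp hp2
  | student c a hc ha => exact LCl.student hG hc ha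
  | mixture w h0 hw hi => exact LCl.mix h0 hw hi
  | mul f g _ _ hf hg => exact hf.mul hg
  | lim f g hf hlim ih =>
    have hp : ∀ k x, 0 ≤ f k x ∧ f k x ≤ f k 0 := fun k x =>
      ⟨(clsProps _ (hf k)).1 x, (clsProps _ (hf k)).2.2.2 0 x (by simp)⟩
    obtain ⟨C, hC⟩ : ∃ C, ∀ k, f k 0 ≤ C := by
      obtain ⟨C, hC⟩ := (hlim 0).bddAbove_range
      exact ⟨C, fun k => hC ⟨k, rfl⟩⟩
    have hg := clsProps _ (Cls.lim f g hf hlim)
    refine LCl.lim f g C ih (fun k x => (hp k x).2.trans (hC k)) hg.2.1
      (fun x => ⟨hg.1 x, ?_⟩) (ae_of_all _ hlim)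
    exact le_of_tendsto' (hlim x) fun k => (hp k x).2.trans (hC k)

/-- M12: joint log-concavity for products of densities of the class. -/
theorem clsJLC (hmix : MixJLC) (hP : ProfLim) (hT : Thorin) (hG : GammaMix) : ClsJLC := by
  intro n f hf
  exact jlc_lcl hmix Finset.univ f (fun i _ => lcl_of_cls hP hT hG (hf i))
    (fun i hi => absurd (Finset.mem_univ i) hi)

end Pool.Agent.Lib.MP_2d002d_gt.H52
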