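import Pool.Agent.Lib.MP_2d002d_gt.Interfaces

/-!
# MP_2d002d_gt, module M12 (first part): stability of joint log-concavity
-/

set_option autoImplicit false

open MeasureTheory Set Filter Topology
open scoped ContDiff ENNReal Pointwise

namespace Pool.Agent.Lib.MP_2d002d_gt.H52

/-- The image of a bounded set under the combination is bounded. -/
theorem bdd_comb {n : ℕ} {K0 K1 : Set (Fin n → ℝ)} (h0 : Bornology.IsBounded K0)
    (h1 : Bornology.IsBounded K1) (t : ℝ) :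
    Bornology.IsBounded ((1 - t) • K0 + t • K1) :=
  (h0.smul₀ (1 - t)).add (h1.smul₀ t)

theorem ae_smul {n : ℕ} {P : (Fin n → ℝ) → Prop} (h : ∀ᵐ x : Fin n → ℝ, P x) {a : ℝ}
    (ha : 0 < a) : ∀ᵐ x : Fin n → ℝ, P (a⁻¹ • x) := by
  rw [ae_iff] at h ⊢
  have h1 : {x : Fin n → ℝ | ¬ P (a⁻¹ • x)} = (fun x => a⁻¹ • x) ⁻¹' {x | ¬ P x} := rfl
  rw [h1, Measure.addHaar_preimage_smul _ (inv_ne_zero ha.ne'), h, mul_zero]

theorem tendsto_setIntegral {n : ℕ} (F : ℕ → (Fin n → ℝ) → ℝ) (G : (Fin n → ℝ) → ℝ) (C : ℝ)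
    (hm : ∀ k, Measurable (F k)) (hb : ∀ k x, |F k x| ≤ C)
    (hlim : ∀ᵐ x : Fin n → ℝ, Tendsto (fun k => F k x) atTop (𝓝 (G x)))
    (K : Set (Fin n → ℝ)) (hK : Bornology.IsBounded K) {a : ℝ} (ha : 0 < a) :
    Tendsto (fun k => ∫ x in K, F k (a⁻¹ • x)) atTop (𝓝 (∫ x in K, G (a⁻¹ • x))) := by
  have hfin : volume K < ⊤ := hK.measure_lt_top
  haveI : IsFiniteMeasure (volume.restrict K) := ⟨by rwa [Measure.restrict_apply_univ]⟩
  refine tendsto_integral_of_dominated_convergence (fun _ => C) ?_ ?_ ?_ ?_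
  · intro k
    exact ((hm k).comp (measurable_const_smul a⁻¹)).aestronglyMeasurable
  · exact integrable_const C
  · intro k
    exact ae_of_all _ fun x => by rw [Real.norm_eq_abs]; exact hb k _
  · exact ae_restrict_of_ae (ae_smul hlim ha)

/-- Joint log-concavity is stable under bounded almost everywhere limits. -/
theorem jlc_lim {n : ℕ} (F : ℕ → (Fin n → ℝ) → ℝ) (G : (Fin n → ℝ) → ℝ) (C : ℝ)
    (hF : ∀ k, JLC (F k)) (hm : ∀ k, Measurable (F k)) (hb : ∀ k x, |F k x| ≤ C)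
    (hlim : ∀ᵐ x : Fin n → ℝ, Tendsto (fun k => F k x) atTop (𝓝 (G x))) : JLC G := by
  intro K0 K1 a0 a1 t hc0 hc1 hn0 hn1 hs0 hs1 hb0 hb1 ha0 ha1 ht0 ht1
  have hat : 0 < (1 - t) * a0 + t * a1 := by
    have := mul_pos (sub_pos.2 ht1) ha0
    have := mul_pos ht0 ha1
    linarith
  have l0 := tendsto_setIntegral F G C hm hb hlim K0 hb0 ha0
  have l1 := tendsto_setIntegral F G C hm hb hlim K1 hb1 ha1
  have l2 := tendsto_setIntegral F G C hm hb hlim _ (bdd_comb hb0 hb1 t) hat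
  refine le_of_tendsto_of_tendsto' ((l0.rpow_const (Or.inr (by linarith))).mul
    (l1.rpow_const (Or.inr ht0.le))) l2 fun k => ?_
  exact hF k K0 K1 a0 a1 t hc0 hc1 hn0 hn1 hs0 hs1 hb0 hb1 ha0 ha1 ht0 ht1

/-- Joint log-concavity is stable under multiplication by the indicator of a symmetric convex
set. -/
theorem jlc_indicator {n : ℕ} (g : (Fin n → ℝ) → ℝ) (hg : JLC g) (hgm : Measurable g)
    (h0 : ∀ x, 0 ≤ g x) (C : ℝ) (hC : ∀ x, g x ≤ C) (S : Set (Fin n → ℝ)) (hS : Convex ℝ S)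
    (hsym : ∀ x ∈ S, -x ∈ S) (hSm : MeasurableSet S) : JLC (S.indicator g) := by
  intro K0 K1 a0 a1 t hc0 hc1 hn0 hn1 hs0 hs1 hb0 hb1 ha0 ha1 ht0 ht1
  have hat : 0 < (1 - t) * a0 + t * a1 := by
    have := mul_pos (sub_pos.2 ht1) ha0
    have := mul_pos ht0 ha1
    linarith
  rcases S.eq_empty_or_nonempty with rfl | hne
  · simp only [indicator_empty, integral_zero]
    rw [Real.zero_rpow (by linarith), zero_mul]
  have hzero : ∀ (K : Set (Fin n → ℝ)), Convex ℝ K → K.Nonempty → (∀ x ∈ K, -x ∈ K) →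
      (0 : Fin n → ℝ) ∈ K := by
    intro K hK hne hs
    obtain ⟨x, hx⟩ := hne
    have := hK hx (hs x hx) (by norm_num : (0 : ℝ) ≤ 1 / 2) (by norm_num : (0 : ℝ) ≤ 1 / 2)
      (by norm_num)
    simpa using this
  -- scaled sets
  have key : ∀ (K : Set (Fin n → ℝ)) (a : ℝ), (∫ x in K, S.indicator g (a⁻¹ • x)) =
      ∫ x in K ∩ (fun x => a⁻¹ • x) ⁻¹' S, g (a⁻¹ • x) := by
    intro K a
    have h1 : (fun x => S.indicator g (a⁻¹ • x))
        = ((fun x : Fin n → ℝ => a⁻¹ • x) ⁻¹' S).indicator (fun x => g (a⁻¹ • x)) := rfl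
    rw [h1, setIntegral_indicator ((measurable_const_smul a⁻¹) hSm)]
  rw [key, key, key]
  have hcvx : ∀ a : ℝ, Convex ℝ ((fun x : Fin n → ℝ => a⁻¹ • x) ⁻¹' S) := by
    intro a x hx y hy p q hp hq hpq
    show a⁻¹ • (p • x + q • y) ∈ S
    have := hS hx hy hp hq hpq
    rw [smul_add, smul_comm a⁻¹ p, smul_comm a⁻¹ q]
    exact this
  have hsy : ∀ a : ℝ, ∀ x ∈ ((fun x : Fin n → ℝ => a⁻¹ • x) ⁻¹' S),
      -x ∈ ((fun x : Fin n → ℝ => a⁻¹ • x) ⁻¹' S) := by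
    intro a x hx
    show a⁻¹ • (-x) ∈ S
    rw [smul_neg]
    exact hsym _ hx
  have h0S : (0 : Fin n → ℝ) ∈ S := hzero S hS hne hsym
  have h0a : ∀ a : ℝ, (0 : Fin n → ℝ) ∈ ((fun x : Fin n → ℝ => a⁻¹ • x) ⁻¹' S) := by
    intro a
    show a⁻¹ • (0 : Fin n → ℝ) ∈ S
    rw [smul_zero]
    exact h0S
  refine (hg (K0 ∩ (fun x => a0⁻¹ • x) ⁻¹' S) (K1 ∩ (fun x => a1⁻¹ • x) ⁻¹' S) a0 a1 t
    (hc0.inter (hcvx a0)) (hc1.inter (hcvx a1))
    ⟨0, hzero K0 hc0 hn0 hs0, h0a a0⟩ ⟨0, hzero K1 hc1 hn1 hs1, h0a a1⟩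
    (fun x hx => ⟨hs0 x hx.1, hsy a0 x hx.2⟩) (fun x hx => ⟨hs1 x hx.1, hsy a1 x hx.2⟩)
    (hb0.subset inter_subset_left) (hb1.subset inter_subset_left) ha0 ha1 ht0 ht1).trans ?_
  have hbb : Bornology.IsBounded (((1 - t) • K0 + t • K1) ∩
      (fun x => ((1 - t) * a0 + t * a1)⁻¹ • x) ⁻¹' S) :=
    (bdd_comb hb0 hb1 t).subset inter_subset_left
  refine setIntegral_mono_set ?_ ?_ ?_
  · have : IsFiniteMeasure (volume.restrict (((1 - t) • K0 + t • K1) ∩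
      (fun x => ((1 - t) * a0 + t * a1)⁻¹ • x) ⁻¹' S)) :=
      ⟨by rw [Measure.restrict_apply_univ]; exact hbb.measure_lt_top⟩
    refine Integrable.mono' (integrable_const C)
      (hgm.comp (measurable_const_smul _)).aestronglyMeasurable ?_
    exact ae_of_all _ fun x => by
      rw [Real.norm_eq_abs, abs_of_nonneg (h0 _)]
      exact hC _
  · exact ae_of_all _ fun x => h0 _
  · refine LE.le.eventuallyLE ?_
    rintro x ⟨y', ⟨y, ⟨hy1, hy2⟩, rfl⟩, z', ⟨z, ⟨hz1, hz2⟩, rfl⟩, rfl⟩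
    refine ⟨⟨_, ⟨y, hy1, rfl⟩, _, ⟨z, hz1, rfl⟩, rfl⟩, ?_⟩
    show ((1 - t) * a0 + t * a1)⁻¹ • ((1 - t) • y + t • z) ∈ S
    have h2 := hS hy2 hz2
      (show 0 ≤ ((1 - t) * a0 + t * a1)⁻¹ * ((1 - t) * a0) by
        have := (mul_pos (sub_pos.2 ht1) ha0).le
        positivity)
      (show 0 ≤ ((1 - t) * a0 + t * a1)⁻¹ * (t * a1) by positivity)
      (by field_simp)
    have h3 : ((1 - t) * a0 + t * a1)⁻¹ • ((1 - t) • y + t • z)
        = (((1 - t) * a0 + t * a1)⁻¹ * ((1 - t) * a0)) • (a0⁻¹ • y)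
          + (((1 - t) * a0 + t * a1)⁻¹ * (t * a1)) • (a1⁻¹ • z) := by
      rw [smul_add, smul_smul, smul_smul, smul_smul, smul_smul]
      congr 2
      · field_simp
      · field_simp
    rw [h3]
    exact h2

/-! ## Admissible profiles -/

theorem adm_add {A B : ℝ → ℝ} (hA : Adm A) (hB : Adm B) : Adm (fun s => A s + B s) := by
  have dA : ∀ s, DifferentiableAt ℝ A s := fun s => (hA.smooth.differentiable (by simp)) s
  have dB : ∀ s, DifferentiableAt ℝ B s := fun s => (hB.smooth.differentiable (by simp)) s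
  have h1 : ∀ s, deriv (fun s => A s + B s) s = deriv A s + deriv B s := fun s =>
    deriv_fun_add (dA s) (dB s)
  have cA : ContDiff ℝ ∞ (deriv A) := (contDiff_infty_iff_deriv.1 hA.smooth).2
  have cB : ContDiff ℝ ∞ (deriv B) := (contDiff_infty_iff_deriv.1 hB.smooth).2
  have h2 : ∀ s, deriv (deriv (fun s => A s + B s)) s = deriv (deriv A) s + deriv (deriv B) s := by
    intro s
    have h3 : deriv (fun s => A s + B s) = fun s => deriv A s + deriv B s := funext h1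
    rw [h3]
    exact deriv_fun_add ((cA.differentiable (by simp)) s) ((cB.differentiable (by simp)) s)
  obtain ⟨δ1, hδ1, l1⟩ := hA.lo
  obtain ⟨δ2, hδ2, l2⟩ := hB.lo
  obtain ⟨C1, u1⟩ := hA.up
  obtain ⟨C2, u2⟩ := hB.up
  obtain ⟨E1, v1⟩ := hA.up2
  obtain ⟨E2, v2⟩ := hB.up2
  exact
    { smooth := hA.smooth.add hB.smooth
      lo := ⟨δ1 + δ2, by linarith, fun s hs => by rw [h1]; linarith [l1 s hs, l2 s hs]⟩
      up := ⟨C1 + C2, fun s hs => by rw [h1]; linarith [u1 s hs, u2 s hs]⟩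
      lo2 := fun s hs => by rw [h2]; linarith [hA.lo2 s hs, hB.lo2 s hs]
      up2 := ⟨E1 + E2, fun s hs => by rw [h2]; linarith [v1 s hs, v2 s hs]⟩ }

theorem adm_linear {c : ℝ} (hc : 0 < c) : Adm (fun s => c * s) := by
  have h1 : deriv (fun s : ℝ => c * s) = fun _ => c := by
    funext s
    have h := ((hasDerivAt_id s).const_mul c).deriv
    rw [mul_one] at h
    exact h
  exact
    { smooth := contDiff_const.mul contDiff_id
      lo := ⟨c, hc, fun s _ => by rw [h1]⟩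
      up := ⟨c, fun s _ => by rw [h1]⟩
      lo2 := fun s _ => by rw [h1]; simp
      up2 := ⟨0, fun s _ => by rw [h1]; simp⟩ }

theorem adm_mono {A : ℝ → ℝ} (hA : Adm A) {s : ℝ} (hs : 0 ≤ s) : A 0 ≤ A s := by
  obtain ⟨δ, hδ, l⟩ := hA.lo
  have h : MonotoneOn A (Ici 0) := by
    refine monotoneOn_of_deriv_nonneg (convex_Ici 0) hA.smooth.continuous.continuousOn
      ((hA.smooth.differentiable (by simp)).differentiableOn) fun x hx => ?_
    rw [interior_Ici] at hx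
    exact hδ.le.trans (l x (le_of_lt hx))
  exact h (mem_Ici.2 le_rfl) (mem_Ici.2 hs) hs

end Pool.Agent.Lib.MP_2d002d_gt.H52
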